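import Pool.Agent.V7H63.Gad.Abp

/-!
# Branching programs for the permanent: cubic size

The proof has four parts.

* A matrix (`Pool.Agent.V7H63.Gad.mat`). There is a matrix of order `7 r + 1` with affine entries
  in `r (r + 1)` variables, such that its subpermanents of order `7 r` span, for every window `δ`
  of `r` consecutive columns of two `r × 2 r` matrices `x` and `E`, all the coefficients in `z` of
  the permanent of the window of `z x + E` (`Pool.Agent.V7H63.Gad.exists_comb`).
* A degeneration (`Pool.Agent.V7H63.Gad.Fw_zero`). If the entries in row `i` and column `j` of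
  the matrices are multiplied by `ε ^ ((j - i) ^ 2)`, then these coefficients become, up to powers
  of `ε` and for `ε → 0`, the elementary symmetric polynomials of `r + 1` disjoint sets of `r`
  variables. So for generic `ε` they have no common zero except the origin
  (`Pool.Agent.V7H63.Gad.mono_mem`).
* Cuts (`Pool.Agent.V7H63.Gad.dec_abp`), after Kumar and Chatterjee, Kumar, She and Volk. A
  branching program with few vertices computes a sum of few products of polynomials which vanish
  at a given point, up to a polynomial of low degree.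
* An elementary dimension count (`Pool.Agent.V7H63.Gad.dim_bound`).
-/

set_option autoImplicit false

open MvPolynomial

namespace Pool.Agent.Results.MP_8b1d3b_lc.BranchingProgramsH63

universe u

/-- A (layered, algebraic) branching program over a field `K` in the variables `V`, with labels
of degree at most `d`. The vertices are in layers `0, …, depth`, the layer `l` has `width l`
vertices, the first and the last layer have one vertex, and there is an edge with a label from
every vertex of a layer to every vertex of the next layer (an edge may have the label `0`). -/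
structure BranchingProgram (V : Type) (K : Type u) [Field K] (d : ℕ) where
  /-- the number of the last layer -/
  depth : ℕ
  /-- the number of vertices of a layer -/
  width : ℕ → ℕ
  /-- the first layer is the source -/
  width_zero : width 0 = 1
  /-- the last layer is the sink -/
  width_depth : width depth = 1
  /-- the labels of the edges from a layer to the next one -/
  label : ∀ l : ℕ, Fin (width l) → Fin (width (l + 1)) → MvPolynomial V K
  /-- the degrees of the labels are at most `d` -/
  label_degree : ∀ l u v, (label l u v).totalDegree ≤ d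

variable {V : Type} {K : Type u} [Field K] {d : ℕ}

/-- the sum over all paths from the source to a vertex of the products of the labels -/
noncomputable def BranchingProgram.value (B : BranchingProgram V K d) :
    ∀ l : ℕ, Fin (B.width l) → MvPolynomial V K
  | 0, _ => 1
  | l + 1, v => ∑ u, B.value l u * B.label l u v

/-- the computed polynomial: the value at the sink, the only vertex of the last layer -/
noncomputable def BranchingProgram.output (B : BranchingProgram V K d) : MvPolynomial V K :=
  ∑ v, B.value B.depth v

/-- the number of vertices -/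
def BranchingProgram.vertices (B : BranchingProgram V K d) : ℕ :=
  ∑ l ∈ Finset.range (B.depth + 1), B.width l

lemma run_value (B : BranchingProgram V K d) (k : ℕ) : ∀ l m : ℕ, l + k = m →
    Pool.Agent.V7H63.Gad.run B.width B.label k l (B.value l) = ∑ v, B.value m v := by
  induction k with
  | zero =>
    intro l m h
    obtain rfl : l = m := h
    rw [Pool.Agent.V7H63.Gad.run]
  | succ k ih =>
    intro l m h
    rw [Pool.Agent.V7H63.Gad.run, ← ih (l + 1) m (by omega)]
    rfl

lemma vertices_ge (B : BranchingProgram V K d) :
    ∑ i ∈ Finset.range (B.depth - 1), B.width (1 + i) ≤ B.vertices := by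
  rw [BranchingProgram.vertices, Finset.sum_range_succ']
  refine le_trans ?_ (Nat.le_add_right _ _)
  calc ∑ i ∈ Finset.range (B.depth - 1), B.width (1 + i)
      = ∑ i ∈ Finset.range (B.depth - 1), B.width (i + 1) :=
        Finset.sum_congr rfl fun i _ => by rw [add_comm]
    _ ≤ ∑ i ∈ Finset.range B.depth, B.width (i + 1) := by
        apply Finset.sum_le_sum_of_subset
        intro i hi
        rw [Finset.mem_range] at hi ⊢
        omega

/-- Let `K` be a field in which `n ! ≠ 0`, and let `h` be a polynomial of degree at most `n / 14`.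
Every branching program over `K` with labels of degree at most `d` which computes the sum of the
generic `n × n` permanent and `h` has at least `n ^ 2 * (n - 14 * d) / (2744 * d)` vertices. -/
theorem result {n : ℕ} (hK : (n.factorial : K) ≠ 0) (hd : 1 ≤ d)
    (h : MvPolynomial (Fin n × Fin n) K) (hh : 14 * h.totalDegree ≤ n)
    (B : BranchingProgram (Fin n × Fin n) K d)
    (hB : B.output =
      (Matrix.of fun i j : Fin n => (X (i, j) : MvPolynomial (Fin n × Fin n) K)).permanent + h) :
    n ^ 3 ≤ 2744 * d * B.vertices + 14 * d * n ^ 2 := by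
  by_cases hn : n ≤ 14 * d
  · calc n ^ 3 = n * n ^ 2 := by ring
      _ ≤ 14 * d * n ^ 2 := Nat.mul_le_mul_right _ hn
      _ ≤ _ := Nat.le_add_left _ _
  push Not at hn
  obtain ⟨r, hr⟩ : ∃ r, r = (n - 1) / 7 := ⟨_, rfl⟩
  have hs1 : 7 * r + 1 ≤ n := by omega
  have hs2 : n ≤ 7 * (r + 1) := by omega
  obtain ⟨q, hq⟩ : ∃ q, q = (r + 1) / (2 * d) := ⟨_, rfl⟩
  have h2d : 2 * d ≤ r + 1 := by omega
  have hq1 : 1 ≤ q := by
    rw [hq]
    exact (Nat.one_le_div_iff (by omega)).2 h2d
  have hq2 : 2 * d * q ≤ r + 1 := by
    rw [hq]
    exact Nat.mul_div_le _ _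
  have hq3 : r + 1 < 2 * d * q + 2 * d := by
    rw [hq]
    have h1 := Nat.lt_mul_div_succ (r + 1) (show 0 < 2 * d by omega)
    calc r + 1 < 2 * d * ((r + 1) / (2 * d) + 1) := h1
      _ = _ := by ring
  have hqg : d * q ≤ (r + 1) / 2 := by
    rw [Nat.le_div_iff_mul_le (by omega)]
    calc d * q * 2 = 2 * d * q := by ring
      _ ≤ r + 1 := hq2
  obtain ⟨m, hm1, hm2⟩ := Pool.Agent.V7H63.Gad.abp_bound (r := r) (g := (r + 1) / 2) (Δ := d)
    (q := q) (by omega) hs1 hK (by omega) hq1 hqg B.width B.label B.label_degree B.depth h
    (by omega) (by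
      rw [← show B.value 0 = fun _ => 1 from rfl, run_value B B.depth 0 B.depth (by omega)]
      exact hB)
  have hV := vertices_ge B
  set s := r + 1 with hs
  have h1 : s * s ≤ 4 * m := by
    have h3 : s * s = s * r + s := by rw [hs]; ring
    have h4 : s * (s / 2 - 1) + s = s * (s / 2) := by
      obtain ⟨t, ht⟩ : ∃ t, s / 2 = t + 1 := ⟨s / 2 - 1, by omega⟩
      rw [ht, Nat.add_sub_cancel]
      ring
    have h5 : 2 * (s * (s / 2)) ≤ s * s := by
      calc 2 * (s * (s / 2)) = s * (2 * (s / 2)) := by ring
        _ ≤ s * s := Nat.mul_le_mul_left _ (Nat.mul_div_le _ _)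
    omega
  have h2 : q * (s * s) ≤ 4 * B.vertices := by
    calc q * (s * s) ≤ q * (4 * m) := Nat.mul_le_mul_left _ h1
      _ = 4 * (q * m) := by ring
      _ ≤ 4 * B.vertices := Nat.mul_le_mul_left _ (hm1.trans hV)
  have h3 : s * (s * s) ≤ 8 * d * B.vertices + 2 * d * (s * s) := by
    calc s * (s * s) ≤ (2 * d * q + 2 * d) * (s * s) := Nat.mul_le_mul_right _ hq3.le
      _ = 2 * d * (q * (s * s)) + 2 * d * (s * s) := by ring
      _ ≤ 2 * d * (4 * B.vertices) + 2 * d * (s * s) :=
          Nat.add_le_add_right (Nat.mul_le_mul_left _ h2) _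
      _ = _ := by ring
  -- the passage from `s` to `n`
  obtain ⟨a, ha⟩ : ∃ a, n = 14 * d + a := ⟨n - 14 * d, by omega⟩
  obtain ⟨b, hb⟩ : ∃ b, s = 2 * d + b := ⟨s - 2 * d, by omega⟩
  have hab : a ≤ 7 * b := by omega
  have h4 : b * (s * s) ≤ 8 * d * B.vertices := by
    have h5 : s * (s * s) = 2 * d * (s * s) + b * (s * s) := by
      rw [← Nat.add_mul, ← hb]
    omega
  have h5 : a * n ^ 2 ≤ 2744 * d * B.vertices := by
    calc a * n ^ 2 ≤ (7 * b) * (7 * s) ^ 2 := Nat.mul_le_mul hab (Nat.pow_le_pow_left hs2 2)
      _ = 343 * (b * (s * s)) := by ring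
      _ ≤ 343 * (8 * d * B.vertices) := Nat.mul_le_mul_left _ h4
      _ = 2744 * d * B.vertices := by ring
  have h6 : n ^ 3 = 14 * d * n ^ 2 + a * n ^ 2 := by
    calc n ^ 3 = n * n ^ 2 := by ring
      _ = (14 * d + a) * n ^ 2 := by rw [← ha]
      _ = _ := by ring
  omega

end Pool.Agent.Results.MP_8b1d3b_lc.BranchingProgramsH63
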