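import Pool.Agent.V7H84.SL.Core
import Pool.Agent.V7H84.SL.Count

/-!
# Arithmetic circuits for the permanent need `c n ^ 2 log n` multiplications and divisions

Let `K` be any field of characteristic different from two.  We consider computations of rational
functions in the `n ^ 2` entries of a generic `n × n` matrix: each step is the product or the
quotient of two linear combinations of `1`, of the variables and of the results of earlier steps.
Additions and multiplications by constants are free, there is no restriction whatsoever on the
degrees, on cancellations or on the constants.  We show that a computation of the generic `n × n`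
permanent needs at least `n ^ 2 (log₂ n - 16) / 6561` steps, and the same for the permanent as a
limit: for computations over `K(ε)` of polynomials `per + ε H`.

Idea of the proof.  (1) Let `(γ, β)` run over `g ^ 2` pairs of groups and `(δ, s)` over `r ^ 2`
pairs, `r = n ^ (1/3)`, `g r = c n`.  The permanent of size `O(g r + r ^ 3) = O(n)` has as an affine
restriction the polynomial `∑ Y_{γβδs} per(w_{δs} 1 + X_{γβ}^δ)`, where `X_{γβ}` is a banded matrix
of `r ^ 2` variables and `X^δ` its square block shifted by `δ` (files `Chn`, `Sel`, `Blk`, `Fun`,
`Cmb`).  (2) Its derivatives with respect to the variables `Y` are, after a degeneration, the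
`r ^ 2 g ^ 2` polynomials `∏_i (w_s + x_{γβiδ})` in as many variables; the system has
`(r!) ^ (r g ^ 2)` simple solutions (file `Sys`).  (3) By the theorem of Baur and Strassen, which we
prove for computations with divisions in the form of the reverse mode (file `Rch`), the derivatives
cost at most three times as much as the permanent.  (4) The dimension of the space of products of
`t` elements at most doubles, up to a shift of `t`, when one product or quotient is added
(`double'`); this is an elementary replacement of the degree bound of Strassen, it is not disturbed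
by divisions, and it gives that the number of simple solutions is at most `2 ^ (3 s)`, also for
systems over `K(ε)` with simple solutions at `ε = 0` (files `Hilb`, `Eps`, `Eps2`).
-/

set_option autoImplicit false

universe u

namespace Pool.Agent.Results.MP_8b1d3b_lc.CircuitSizeH84

open MvPolynomial Pool.Agent.V7H84.SL

/-- The generic `n × n` permanent over the commutative ring `R`, in the variables `X (i, j)`. -/
noncomputable def genericPermanent (R : Type u) [CommRing R] (n : ℕ) :
    MvPolynomial (Fin n × Fin n) R :=
  Matrix.permanent (Matrix.of fun i j : Fin n => X (i, j))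

/-- The field of rational functions in the entries of an `n × n` matrix. -/
abbrev RatFun (K : Type u) [Field K] (n : ℕ) : Type u :=
  FractionRing (MvPolynomial (Fin n × Fin n) K)

/-- A polynomial as a rational function. -/
noncomputable def toRat (K : Type u) [Field K] (n : ℕ) (f : MvPolynomial (Fin n × Fin n) K) :
    RatFun K n :=
  algebraMap (MvPolynomial (Fin n × Fin n) K) (RatFun K n) f

/-- The linear combinations of `1`, of the variables and of the `g j` with `j ∈ J`. -/
noncomputable def available (K : Type u) [Field K] {n s : ℕ} (g : Fin s → RatFun K n)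
    (J : Set (Fin s)) : Submodule K (RatFun K n) :=
  Submodule.span K ({1} ∪ Set.range (fun x => toRat K n (X x)) ∪ g '' J)

/-- Each member of the sequence is the product or the quotient of two linear combinations of `1`,
of the variables and of earlier members of the sequence. -/
def IsComputation (K : Type u) [Field K] {n s : ℕ} (g : Fin s → RatFun K n) : Prop :=
  ∀ i, ∃ a ∈ available K g {j | j < i}, ∃ c ∈ available K g {j | j < i},
    g i = a * c ∨ (c ≠ 0 ∧ g i = a / c)

/-- The polynomial `f` can be computed with `s` multiplications and divisions. -/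
def Computable (K : Type u) [Field K] (n s : ℕ) (f : MvPolynomial (Fin n × Fin n) K) : Prop :=
  ∃ g : Fin s → RatFun K n, IsComputation K g ∧ toRat K n f ∈ available K g Set.univ

theorem avail_eq {K : Type u} [Field K] {n s : ℕ} (g : Fin s → RatFun K n) (J : Set (Fin s)) :
    available K g J = Bp (pf K (Fin n × Fin n)) ⊔ Submodule.span K (g '' J) := by
  unfold available Bp
  rw [Submodule.span_union, Set.singleton_union]
  rfl

theorem exists_reach {K : Type u} [Field K] {n s : ℕ} {f : MvPolynomial (Fin n × Fin n) K}
    (h : Computable K n s f) : ∃ W : Submodule K (FractionRing (MvPolynomial (Fin n × Fin n) K)),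
      Reach K s (Bp (pf K (Fin n × Fin n))) W ∧ pf K (Fin n × Fin n) f ∈ W := by
  obtain ⟨g, hg, hf⟩ := h
  refine ⟨_, reach_of_seq (Bp (pf K (Fin n × Fin n))) g fun i => ?_, ?_⟩
  · obtain ⟨a, ha, c, hc, h1⟩ := hg i
    rw [avail_eq] at ha hc
    refine ⟨a, ha, c, hc, h1.imp id fun h2 => ⟨h2.1, ?_⟩⟩
    rw [h2.2, div_mul_cancel₀ _ h2.1]
  · rw [avail_eq, Set.image_univ] at hf
    exact hf

theorem map_genericPermanent {R S : Type u} [CommRing R] [CommRing S] (l : R →+* S) (n : ℕ) :
    map l (genericPermanent R n) = genericPermanent S n := by
  unfold genericPermanent Matrix.permanent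
  rw [map_sum]
  refine Finset.sum_congr rfl fun σ _ => ?_
  rw [map_prod]
  refine Finset.prod_congr rfl fun i _ => ?_
  rw [Matrix.of_apply, Matrix.of_apply, map_X]

/-- Change of the ground field. -/
theorem push_map {K L : Type u} [Field K] [Field L] (l : K →+* L) {n s : ℕ}
    {f : MvPolynomial (Fin n × Fin n) K} (h : Computable K n s f) :
    ∃ W : Submodule L (FractionRing (MvPolynomial (Fin n × Fin n) L)),
      Reach L s (Bp (pf L (Fin n × Fin n))) W ∧ pf L (Fin n × Fin n) (map l f) ∈ W := by
  obtain ⟨W, hW, hf⟩ := exists_reach h
  obtain ⟨W', h1, h2⟩ := push_frac l (map l) (fun k => map_C _ _)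
    (fun i => by rw [map_X, totalDegree_X]) (map_injective l l.injective) hW
  exact ⟨W', h1, h2 f hf⟩

theorem exists_lift {R S : Type u} [CommRing R] [IsDomain R] [CommRing S] [IsDomain S]
    (κ : R →+* S) (hκ : Function.Injective κ) : ∃ l : FractionRing R →+* FractionRing S,
      ∀ a, l (algebraMap R (FractionRing R) a) = algebraMap S (FractionRing S) (κ a) := by
  let Ψ : R →+* FractionRing S := (algebraMap S (FractionRing S)).comp κ
  have hΨ : Function.Injective Ψ := (IsFractionRing.injective S (FractionRing S)).comp hκ
  let Θ : FractionRing R →+* FractionRing S := IsFractionRing.lift hΨ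
  have hΘ : ∀ f, Θ (algebraMap R (FractionRing R) f) = Ψ f :=
    fun f => IsFractionRing.lift_algebraMap hΨ f
  exact ⟨Θ, hΘ⟩

/-- The substitution of a power of `ε`, together with an extension of the constants. -/
theorem exists_subst {K A : Type u} [Field K] [Field A] (k : K →+* A) {M : ℕ} (hM : 0 < M) :
    ∃ κ : Polynomial K →+* Polynomial A, Function.Injective κ ∧
      κ Polynomial.X = Polynomial.X ^ M := by
  obtain ⟨κ, hκ⟩ : ∃ κ : Polynomial K →+* Polynomial A, ∀ f, κ f =
      Polynomial.expand A M (Polynomial.map k f) :=
    ⟨(Polynomial.expand A M : Polynomial A →+* Polynomial A).comp (Polynomial.mapRingHom k),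
      fun f => rfl⟩
  refine ⟨κ, ?_, by rw [hκ, Polynomial.map_X, Polynomial.expand_X]⟩
  intro f g hfg
  rw [hκ, hκ] at hfg
  exact Polynomial.map_injective k k.injective (Polynomial.expand_injective hM hfg)

theorem two_ne {K A : Type u} [Field K] [Field A] (k : K →+* A) (hK : (2 : K) ≠ 0) :
    (2 : A) ≠ 0 := by
  intro h0
  apply hK
  apply k.injective
  rw [map_ofNat, map_zero, h0]

/-- The bound for limits, and one choice of the parameters. -/
theorem border_core {K A : Type u} [Field K] [Field A] [Infinite A] (k : K →+* A)
    (hK : (2 : K) ≠ 0) {n s : ℕ} (H : MvPolynomial (Fin n × Fin n) (Polynomial K))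
    (h : Computable (FractionRing (Polynomial K)) n s
      (map (algebraMap (Polynomial K) (FractionRing (Polynomial K)))
        (genericPermanent (Polynomial K) n + C Polynomial.X * H))) {r g : ℕ} (hr : 1 ≤ r)
    (hn : 12 * r * (2 * g + r * r) + 6 * r ≤ n) : r.factorial ^ (g * g * r) ≤ 2 ^ (3 * s) := by
  obtain ⟨κ, hκi, hκ⟩ := exists_subst k (Nat.succ_pos (r * (r * r)))
  obtain ⟨l, hl'⟩ := exists_lift κ hκi
  have hl : l.comp (algebraMap (Polynomial K) (FractionRing (Polynomial K))) =
      (algebraMap (Polynomial A) (FractionRing (Polynomial A))).comp κ := RingHom.ext hl'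
  obtain ⟨W, hW, hP⟩ := push_map l h
  have h3 : map κ (genericPermanent (Polynomial K) n + C Polynomial.X * H) =
      genericPermanent (Polynomial A) n + C (Polynomial.X ^ (r * (r * r)).succ) * map κ H := by
    rw [map_add, map_mul, map_C, map_genericPermanent, hκ]
  rw [map_map, hl, ← map_map, h3] at hP
  exact core (two_ne k hK) hr hn (Nat.lt_succ_self _) (map κ H) hW hP

/-- Exact computations, and one choice of the parameters. -/
theorem exact_core {K A : Type u} [Field K] [Field A] [Infinite A] (k : K →+* A)
    (hK : (2 : K) ≠ 0) {n s : ℕ} (h : Computable K n s (genericPermanent K n)) {r g : ℕ}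
    (hr : 1 ≤ r) (hn : 12 * r * (2 * g + r * r) + 6 * r ≤ n) :
    r.factorial ^ (g * g * r) ≤ 2 ^ (3 * s) := by
  obtain ⟨W, hW, hP⟩ := push_map ((algebraMap (Polynomial A) (FractionRing (Polynomial A))).comp
    (Polynomial.C.comp k)) h
  rw [← map_map, map_genericPermanent] at hP
  refine core (two_ne k hK) hr hn (Nat.lt_succ_self _) 0 hW ?_
  rw [mul_zero, add_zero]
  exact hP

/-- **Arithmetic circuits for the permanent.**  Over a field of characteristic different from two,
every computation of the generic `n × n` permanent with `s` multiplications and divisions has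
`s ≥ n ^ 2 (log₂ n - 16) / 6561`, also in the sense of limits. -/
theorem result (K : Type u) [Field K] (hK : (2 : K) ≠ 0) (n s : ℕ) :
    (Computable K n s (genericPermanent K n) →
      n ^ 2 * Nat.log 2 n ≤ 6561 * s + 16 * n ^ 2) ∧
    ∀ H : MvPolynomial (Fin n × Fin n) (Polynomial K),
      Computable (FractionRing (Polynomial K)) n s
        (map (algebraMap (Polynomial K) (FractionRing (Polynomial K)))
          (genericPermanent (Polynomial K) n + C Polynomial.X * H)) →
      n ^ 2 * Nat.log 2 n ≤ 6561 * s + 16 * n ^ 2 := by
  haveI : Infinite (AlgebraicClosure K) := IsAlgClosed.instInfinite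
  exact ⟨fun h => count fun r g hr hn => exact_core (algebraMap K (AlgebraicClosure K)) hK h hr hn,
    fun H h => count fun r g hr hn => border_core (algebraMap K (AlgebraicClosure K)) hK H h hr hn⟩

end Pool.Agent.Results.MP_8b1d3b_lc.CircuitSizeH84
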