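import Pool.Agent.V7L.Dc.Lower

/-!
# The determinantal complexity of the permanent is at least `n ^ 2 - 8 n`

Let `K` be a field in which `n!` is not zero (for instance `ℚ`, `ℝ`, `ℂ`, or a field of
characteristic larger than `n`).  If the generic `n × n` permanent over `K` is the determinant of an
`m × m` matrix the entries of which are affine forms with coefficients in `K`, then
`m ≥ n ^ 2 - 8 n`.

Proof.  We use a point `x₀` of the permanental hypersurface and the space `Y` of the `(n-2) × (n-2)`
matrices with zero row and column sums, such that for `v` in `Y`, `per (x₀ + T v)` is `T ^ 3` times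
a nonzero multiple of the sum of the cubes of the entries of `v`, up to higher powers of `T`: all
entries of `x₀` are `1`, except for a `2 × 2` block, which kills the constant and the quadratic term.
If the constant matrix of the representation at `x₀` has corank at least two, then the cubic form
vanishes on a subspace of codimension `4` of `Y`.  If the corank is one, then the row and the column
of the linear part at the zero of the diagonal normal form span a totally isotropic space, so that
both vanish on a subspace `W` of codimension at most `m - 1` of `Y`, and along `W` the cubic form is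
singular: `∑ w ^ 2 v = 0` for `w ∈ W`, `v ∈ Y`.  Multiplication by an element of `W` of maximal
support embeds `W` into the orthogonal complement of `Y`, which has dimension at most `2 (n - 2)`.
-/

set_option autoImplicit false

universe u

namespace Pool.Agent.Results.MP_8b1d3b_lc.DetComplexityLead

open MvPolynomial Pool.Agent.V7L.Dc

/-- The generic `n × n` permanent over `K`, in the variables `X (i, j)`. -/
noncomputable def genericPermanent (K : Type u) [Field K] (n : ℕ) :
    MvPolynomial (Fin n × Fin n) K :=
  (Matrix.of fun i j => (X (i, j) : MvPolynomial (Fin n × Fin n) K)).permanent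

/-- The `m × m` matrix of affine forms with constant part `L₀` and coefficients `L i j`. -/
noncomputable def affineMatrix {K : Type u} [Field K] {n m : ℕ} (L₀ : Matrix (Fin m) (Fin m) K)
    (L : Fin n → Fin n → Matrix (Fin m) (Fin m) K) :
    Matrix (Fin m) (Fin m) (MvPolynomial (Fin n × Fin n) K) :=
  Matrix.of fun k l => C (L₀ k l) + ∑ i, ∑ j, C (L i j k l) * X (i, j)

theorem permanent_submatrix {R : Type*} [CommRing R] {I I' : Type*} [Fintype I] [DecidableEq I]
    [Fintype I'] [DecidableEq I'] (e : I ≃ I') (M : Matrix I' I' R) :
    (M.submatrix e e).permanent = M.permanent := by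
  unfold Matrix.permanent
  refine Fintype.sum_equiv e.permCongr _ _ fun σ => ?_
  refine Fintype.prod_equiv e _ _ fun i => ?_
  simp

theorem evaluate {K : Type u} [Field K] {n m : ℕ} {L₀ : Matrix (Fin m) (Fin m) K}
    {L : Fin n → Fin n → Matrix (Fin m) (Fin m) K}
    (h : genericPermanent K n = (affineMatrix L₀ L).det) (R : Type u) [CommRing R] [Algebra K R]
    (Y : Matrix (Fin n) (Fin n) R) :
    Y.permanent = (L₀.map (algebraMap K R) +
      ∑ i, ∑ j, Y i j • (L i j).map (algebraMap K R)).det := by
  have h1 := congrArg (aeval (R := K) fun p : Fin n × Fin n => Y p.1 p.2) h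
  have h2 : aeval (R := K) (fun p : Fin n × Fin n => Y p.1 p.2) (genericPermanent K n) =
      Y.permanent := by
    unfold genericPermanent Matrix.permanent
    rw [map_sum]
    refine Finset.sum_congr rfl fun σ _ => ?_
    rw [map_prod]
    refine Finset.prod_congr rfl fun i _ => ?_
    rw [Matrix.of_apply, aeval_X]
  rw [h2] at h1
  rw [h1, AlgHom.map_det]
  congr 1
  ext k l
  simp [affineMatrix, Matrix.sum_apply, mul_comm]

/-- **Lower bound on the determinantal complexity of the permanent.** -/
theorem result (K : Type u) [Field K] (n m : ℕ) (hK : (n.factorial : K) ≠ 0)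
    (L₀ : Matrix (Fin m) (Fin m) K) (L : Fin n → Fin n → Matrix (Fin m) (Fin m) K)
    (h : genericPermanent K n = (affineMatrix L₀ L).det) :
    n ^ 2 ≤ m + 8 * n := by
  rcases Nat.lt_or_ge n 8 with hn | hn
  · nlinarith
  obtain ⟨N, rfl⟩ : ∃ N, n = N + 2 := ⟨n - 2, by omega⟩
  let e : Fin N ⊕ Fin 2 ≃ Fin (N + 2) := finSumFinEquiv
  obtain ⟨D, L', hg⟩ := exists_good (K := K) (ι := Fin N) L₀ (fun i j => L (e i) (e j)) (by
    intro R _ _ X
    rw [← permanent_submatrix e.symm X, evaluate h R]
    congr 2
    rw [← e.sum_comp]
    refine Finset.sum_congr rfl fun i _ => ?_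
    rw [← e.sum_comp]
    refine Finset.sum_congr rfl fun j _ => ?_
    simp)
  have h1 := lower hg (by simp; omega) (by
    rw [Fintype.card_sum, Fintype.card_fin, Fintype.card_fin]
    exact hK)
  rw [Fintype.card_fin, Fintype.card_fin] at h1
  nlinarith

end Pool.Agent.Results.MP_8b1d3b_lc.DetComplexityLead
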