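import Pool.Agent.V7H63.Perm.BlocksGen

/-!
# Arithmetic formulas for multiples and approximations of the permanent: almost quartic size

The proof has three parts.

* Universality (`Pool.Agent.V7H63.Perm.universal`). Over a field in which `2 ≠ 0`, every
  multi-affine polynomial in `2 κ` variables is the permanent of an `n × n` matrix which has
  the variables in `2 κ` prescribed positions (in different rows and different columns) and
  constants everywhere else, as soon as `n + 5 ≥ 6 * 2 ^ κ + 2 * κ`. So the `4 ^ κ` values of the
  permanent at the points of the cube spanned by these positions at a generic point are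
  algebraically independent, and this passes to every lift `P` of the permanent
  (`Pool.Agent.V7H63.Perm.lift_indep`).
* Divisors (`Pool.Agent.V7H63.Perm.count_bound`). If a nonzero multiple of `P` has, as a
  polynomial in the variables of a block, its coefficients in a ring with `N` generators, then
  these values have transcendence degree at most `N + 1`.
* The method of Kalorkoti (`Pool.Agent.V7H63.Perm.gparam`). If a formula has `l ≥ 1` leaves in
  a block of variables, then it depends, as a polynomial in these variables, on at most
  `4 l - 2` parameters. So a block of `2 κ` variables in different rows and columns needs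
  `4 ^ κ / 4` leaves, and there are `n ⌊n / (2 κ)⌋` disjoint blocks.
-/

set_option autoImplicit false

open MvPolynomial

namespace Pool.Agent.Results.MP_8b1d3b_lc.QuarticFormulasH63

open Pool.Agent.V7H63.Perm

universe u v w

/-- Let `A` be an integral domain with fraction field `F`, let `φ : A → k` be a homomorphism to
a field in which `2 ≠ 0`, let `n ≥ 16`, let `P` be a polynomial over `A` which `φ` maps to the
generic `n × n` permanent, and let `Q` be a nonzero polynomial over `F`. Every arithmetic formula
over `F` which computes `Q * P` has at least `n ^ 4 / (2304 * log₂ n)` leaves which are
variables. -/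
theorem result {A : Type v} [CommRing A] [IsDomain A] {F : Type u} [Field F] [Algebra A F]
    [IsFractionRing A F] {k : Type w} [Field k] (φ : A →+* k) (h2 : (2 : k) ≠ 0)
    {n : ℕ} (hn : 16 ≤ n) (P : MvPolynomial (Fin n × Fin n) A)
    (hP : map φ P =
      (Matrix.of fun i j : Fin n => (X (i, j) : MvPolynomial (Fin n × Fin n) k)).permanent)
    (Q : MvPolynomial (Fin n × Fin n) F) (hQ : Q ≠ 0) (f : Formula (Fin n × Fin n) F)
    (hf : f.eval = Q * map (algebraMap A F) P) :
    n ^ 4 ≤ 2304 * Nat.log 2 n * f.leaves :=
  gformula_lower_bound φ h2 hn P hP Q hQ f hf

end Pool.Agent.Results.MP_8b1d3b_lc.QuarticFormulasH63
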